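import Mathlib
import Pool.Agent.W223.AK.Final

/-!
# Coprime triples of integers of a number field: height and radical
-/

set_option autoImplicit false
set_option linter.unusedSectionVars false

namespace Pool.Agent.W16.TR

open NumberField IsDedekindDomain Finset Pool.Agent.H691R3 Pool.Agent.W223.AK

variable {K : Type} [Field K] [NumberField K]

/-- the vector of a triple -/
def vec (a b c : 𝓞 K) : Fin 3 → K := ![(a : K), (b : K), (c : K)]

@[simp] lemma vec_zero (a b c : 𝓞 K) : vec a b c 0 = (a : K) := rfl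
@[simp] lemma vec_one (a b c : 𝓞 K) : vec a b c 1 = (b : K) := rfl
@[simp] lemma vec_two (a b c : 𝓞 K) : vec a b c 2 = (c : K) := rfl

lemma cmul (x y : 𝓞 K) : ((x * y : 𝓞 K) : K) = (x : K) * (y : K) :=
  map_mul (algebraMap (𝓞 K) K) x y

lemma cadd (x y : 𝓞 K) : ((x + y : 𝓞 K) : K) = (x : K) + (y : K) :=
  map_add (algebraMap (𝓞 K) K) x y

lemma cone : ((1 : 𝓞 K) : K) = 1 := map_one (algebraMap (𝓞 K) K)

lemma exists_notMem {a b c : 𝓞 K} (h : Ideal.span {a, b, c} = (⊤ : Ideal (𝓞 K)))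
    (v : HeightOneSpectrum (𝓞 K)) :
    a ∉ v.asIdeal ∨ b ∉ v.asIdeal ∨ c ∉ v.asIdeal := by
  by_contra hcon
  push Not at hcon
  have h1 : Ideal.span {a, b, c} ≤ v.asIdeal := by
    rw [Ideal.span_le]
    intro x hx
    simp only [Set.mem_insert_iff, Set.mem_singleton_iff] at hx
    rcases hx with rfl | rfl | rfl
    exacts [hcon.1, hcon.2.1, hcon.2.2]
  rw [h] at h1
  exact v.isPrime.ne_top (top_le_iff.mp h1)

lemma H3_cop {a b c : 𝓞 K} (h : Ideal.span {a, b, c} = (⊤ : Ideal (𝓞 K))) :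
    H3 (vec a b c) = ∑ w : InfinitePlace K,
      (w.mult : ℝ) * Real.log (max (w (a : K)) (max (w (b : K)) (w (c : K)))) := by
  unfold H3
  simp only [vec_zero, vec_one, vec_two]
  have h0 : ∑ᶠ v : HeightOneSpectrum (𝓞 K), Real.log (max (FinitePlace.mk v (a : K))
      (max (FinitePlace.mk v (b : K)) (FinitePlace.mk v (c : K)))) = 0 := by
    rw [← finsum_zero (α := HeightOneSpectrum (𝓞 K)) (M := ℝ)]
    refine finsum_congr fun v => ?_
    have e : max (FinitePlace.mk v (a : K))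
      (max (FinitePlace.mk v (b : K)) (FinitePlace.mk v (c : K))) = 1 := by
      show max (fv v (a : K)) (max (fv v (b : K)) (fv v (c : K))) = 1
      apply le_antisymm
      · exact max_le (fv_int_le_one v a) (max_le (fv_int_le_one v b) (fv_int_le_one v c))
      · rcases exists_notMem h v with h1 | h1 | h1
        · exact (fv_eq_one_of_notMem v h1).ge.trans (le_max_left _ _)
        · exact (fv_eq_one_of_notMem v h1).ge.trans ((le_max_left _ _).trans (le_max_right _ _))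
        · exact (fv_eq_one_of_notMem v h1).ge.trans ((le_max_right _ _).trans (le_max_right _ _))
    rw [e, Real.log_one]
  rw [h0, add_zero]

lemma rad_iff {a b c : 𝓞 K} (h : Ideal.span {a, b, c} = (⊤ : Ideal (𝓞 K)))
    (v : HeightOneSpectrum (𝓞 K)) :
    (v ∉ (∅ : Set (HeightOneSpectrum (𝓞 K))) ∧
      ¬ (FinitePlace.mk v (vec a b c 0) = FinitePlace.mk v (vec a b c 1) ∧
      FinitePlace.mk v (vec a b c 1) = FinitePlace.mk v (vec a b c 2))) ↔
      a * b * c ∈ v.asIdeal := by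
  show (v ∉ (∅ : Set (HeightOneSpectrum (𝓞 K))) ∧
      ¬ (fv v (a : K) = fv v (b : K) ∧ fv v (b : K) = fv v (c : K))) ↔ _
  have hp := v.isPrime
  constructor
  · rintro ⟨-, hne⟩
    by_contra hcon
    apply hne
    have ha : a ∉ v.asIdeal := fun h' => hcon (by
      rw [mul_assoc]; exact Ideal.mul_mem_right _ _ h')
    have hb : b ∉ v.asIdeal := fun h' => hcon (Ideal.mul_mem_right _ _ (Ideal.mul_mem_left _ _ h'))
    have hc : c ∉ v.asIdeal := fun h' => hcon (Ideal.mul_mem_left _ _ h')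
    rw [fv_eq_one_of_notMem v ha, fv_eq_one_of_notMem v hb, fv_eq_one_of_notMem v hc]
    exact ⟨rfl, rfl⟩
  · intro hm
    refine ⟨Set.notMem_empty v, ?_⟩
    rintro ⟨e1, e2⟩
    have hx : a ∈ v.asIdeal ∨ b ∈ v.asIdeal ∨ c ∈ v.asIdeal := by
      rcases hp.mem_or_mem hm with h1 | h1
      · rcases hp.mem_or_mem h1 with h2 | h2
        · exact Or.inl h2
        · exact Or.inr (Or.inl h2)
      · exact Or.inr (Or.inr h1)
    have hlt : fv v (a : K) < 1 := by
      rcases hx with h1 | h1 | h1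
      · exact (fv_lt_one_iff v).mpr h1
      · rw [e1]; exact (fv_lt_one_iff v).mpr h1
      · rw [e1, e2]; exact (fv_lt_one_iff v).mpr h1
    have h1 : a ∈ v.asIdeal := (fv_lt_one_iff v).mp hlt
    have h2 : b ∈ v.asIdeal := (fv_lt_one_iff v).mp (by rw [← e1]; exact hlt)
    have h3 : c ∈ v.asIdeal := (fv_lt_one_iff v).mp (by rw [← e2, ← e1]; exact hlt)
    rcases exists_notMem h v with h4 | h4 | h4
    exacts [h4 h1, h4 h2, h4 h3]

/-- the primes dividing a nonzero integer are finite in number -/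
lemma finite_dvd {x : 𝓞 K} (hx : x ≠ 0) :
    {v : HeightOneSpectrum (𝓞 K) | x ∈ v.asIdeal}.Finite := by
  have hx0 : ((x : 𝓞 K) : K) ≠ 0 := RingOfIntegers.coe_ne_zero_iff.mpr hx
  refine (fv_support_finite hx0).subset ?_
  intro v hv
  have := (fv_lt_one_iff v).mpr hv
  exact this.ne

lemma R3_cop {a b c : 𝓞 K} (h : Ideal.span {a, b, c} = (⊤ : Ideal (𝓞 K)))
    (h0 : a * b * c ≠ 0) :
    R3 ∅ (vec a b c) = Real.log (∏ᶠ (v : HeightOneSpectrum (𝓞 K)) (_ : a * b * c ∈ v.asIdeal),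
      (Ideal.absNorm v.asIdeal : ℝ)) := by
  classical
  have hfin := finite_dvd h0
  have e1 : R3 ∅ (vec a b c) = ∑ᶠ (v : HeightOneSpectrum (𝓞 K)) (_ : a * b * c ∈ v.asIdeal),
      Real.log (Ideal.absNorm v.asIdeal : ℝ) := by
    unfold R3
    refine finsum_congr fun v => ?_
    exact finsum_congr_Prop (propext (rad_iff h v)) fun _ => rfl
  rw [e1]
  have e2 : ∑ᶠ (v : HeightOneSpectrum (𝓞 K)) (_ : a * b * c ∈ v.asIdeal),
      Real.log (Ideal.absNorm v.asIdeal : ℝ) =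
      ∑ v ∈ hfin.toFinset, Real.log (Ideal.absNorm v.asIdeal : ℝ) :=
    finsum_mem_eq_finite_toFinset_sum _ hfin
  have e3 : ∏ᶠ (v : HeightOneSpectrum (𝓞 K)) (_ : a * b * c ∈ v.asIdeal),
      (Ideal.absNorm v.asIdeal : ℝ) =
      ∏ v ∈ hfin.toFinset, (Ideal.absNorm v.asIdeal : ℝ) :=
    finprod_mem_eq_finite_toFinset_prod _ hfin
  rw [e2, e3, Real.log_prod]
  intro v _
  have := HeightOneSpectrum.one_lt_absNorm v
  have h1 : (1 : ℝ) < (Ideal.absNorm v.asIdeal : ℝ) := by exact_mod_cast this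
  linarith

/-- proportional coprime triples differ by a unit -/
lemma unit_of_prop {a b c a' b' c' : 𝓞 K} (h : Ideal.span {a, b, c} = (⊤ : Ideal (𝓞 K)))
    (h' : Ideal.span {a', b', c'} = (⊤ : Ideal (𝓞 K))) {l : K} (hl : l ≠ 0)
    (ha : (a' : K) = l * a) (hb : (b' : K) = l * b) (hc : (c' : K) = l * c) :
    ∃ u : (𝓞 K)ˣ, a' = u * a ∧ b' = u * b ∧ c' = u * c := by
  have key : ∀ {a b c a' b' c' : 𝓞 K} {l : K}, Ideal.span {a, b, c} = (⊤ : Ideal (𝓞 K)) →
      (a' : K) = l * a → (b' : K) = l * b → (c' : K) = l * c → ∃ r : 𝓞 K, (r : K) = l := by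
    intro a b c a' b' c' l h ha hb hc
    have h1 : (1 : 𝓞 K) ∈ Ideal.span {a, b, c} := by rw [h]; trivial
    rw [Ideal.mem_span_insert] at h1
    obtain ⟨r, z, hz, hrz⟩ := h1
    rw [Ideal.mem_span_pair] at hz
    obtain ⟨s, t, rfl⟩ := hz
    refine ⟨r * a' + (s * b' + t * c'), ?_⟩
    have h2 : (1 : K) = r * a + (s * b + t * c) := by
      have := congrArg (fun x : 𝓞 K => (x : K)) hrz
      simpa using this
    rw [cadd, cadd, cmul, cmul, cmul, ha, hb, hc]
    linear_combination (-l) * h2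
  obtain ⟨r, hr⟩ := key h ha hb hc
  have hli : l⁻¹ ≠ 0 := inv_ne_zero hl
  obtain ⟨s, hs⟩ := key (l := l⁻¹) h' (a' := a) (b' := b) (c' := c)
    (by rw [ha]; field_simp) (by rw [hb]; field_simp) (by rw [hc]; field_simp)
  have hrs : r * s = 1 := by
    apply RingOfIntegers.coe_injective
    show ((r * s : 𝓞 K) : K) = ((1 : 𝓞 K) : K)
    rw [cmul, cone, hr, hs]
    exact mul_inv_cancel₀ hl
  have hsr : s * r = 1 := by rw [mul_comm]; exact hrs
  refine ⟨⟨r, s, hrs, hsr⟩, ?_, ?_, ?_⟩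
  · apply RingOfIntegers.coe_injective
    show ((a' : 𝓞 K) : K) = ((r * a : 𝓞 K) : K)
    rw [cmul, hr, ha]
  · apply RingOfIntegers.coe_injective
    show ((b' : 𝓞 K) : K) = ((r * b : 𝓞 K) : K)
    rw [cmul, hr, hb]
  · apply RingOfIntegers.coe_injective
    show ((c' : 𝓞 K) : K) = ((r * c : 𝓞 K) : K)
    rw [cmul, hr, hc]

/-- the count for coprime triples of integers up to units, over any number field -/
theorem cop_count {e : ℝ} (hF : StmtFIN K e) (c₀ δ : ℝ) (hδ : 0 < δ) :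
    ∃ D : ℝ, 0 < D ∧ ∀ (X : ℝ) (E : Finset (𝓞 K × 𝓞 K × 𝓞 K)), 0 ≤ X →
      (∀ t ∈ E, Ideal.span {t.1, t.2.1, t.2.2} = (⊤ : Ideal (𝓞 K)) ∧ t.1 + t.2.1 + t.2.2 = 0 ∧
        t.1 * t.2.1 * t.2.2 ≠ 0 ∧
        ∑ w : InfinitePlace K, (w.mult : ℝ) *
          Real.log (max (w (t.1 : K)) (max (w (t.2.1 : K)) (w (t.2.2 : K)))) ≤ X ∧
        Real.log (∏ᶠ (v : HeightOneSpectrum (𝓞 K)) (_ : t.1 * t.2.1 * t.2.2 ∈ v.asIdeal),
          (Ideal.absNorm v.asIdeal : ℝ)) ≤ ∑ w : InfinitePlace K, (w.mult : ℝ) *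
          Real.log (max (w (t.1 : K)) (max (w (t.2.1 : K)) (w (t.2.2 : K)))) + c₀) →
      (∀ t ∈ E, ∀ s ∈ E, ∀ u : (𝓞 K)ˣ, s.1 = u * t.1 → s.2.1 = u * t.2.1 → s.2.2 = u * t.2.2 →
        t = s) →
      (E.card : ℝ) ≤ D * Real.exp ((e + δ) * X) := by
  classical
  obtain ⟨D, hD, hmain⟩ := final_count hF ∅ Set.finite_empty c₀ δ hδ
  refine ⟨D, hD, fun X E hX hE hun => ?_⟩
  set f : 𝓞 K × 𝓞 K × 𝓞 K → (Fin 3 → K) := fun t => vec t.1 t.2.1 t.2.2 with hf
  have hinj : Set.InjOn f E := by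
    intro t ht s hs hts
    have h0 := congrFun hts 0
    have h1 := congrFun hts 1
    have h2 := congrFun hts 2
    simp only [hf, vec_zero, vec_one, vec_two] at h0 h1 h2
    have g0 := RingOfIntegers.coe_injective h0
    have g1 := RingOfIntegers.coe_injective h1
    have g2 := RingOfIntegers.coe_injective h2
    exact Prod.ext g0 (Prod.ext g1 g2)
  have hcard : (E.image f).card = E.card := Finset.card_image_of_injOn hinj
  rw [← hcard]
  refine hmain X (E.image f) hX ?_ ?_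
  · intro x hx
    obtain ⟨t, ht, rfl⟩ := Finset.mem_image.mp hx
    obtain ⟨hsp, hs, hne, hH, hR⟩ := hE t ht
    have n0 : t.1 ≠ 0 := fun h => hne (by rw [h]; ring)
    have n1 : t.2.1 ≠ 0 := fun h => hne (by rw [h]; ring)
    have n2 : t.2.2 ≠ 0 := fun h => hne (by rw [h]; ring)
    refine ⟨RingOfIntegers.coe_ne_zero_iff.mpr n0, RingOfIntegers.coe_ne_zero_iff.mpr n1,
      RingOfIntegers.coe_ne_zero_iff.mpr n2, ?_, ?_, ?_⟩
    · simp only [hf, vec_zero, vec_one, vec_two]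
      have := congrArg (fun x : 𝓞 K => (x : K)) hs
      simpa using this
    · simp only [hf]
      rw [H3_cop hsp]
      exact hH
    · simp only [hf]
      rw [H3_cop hsp, R3_cop hsp hne]
      exact hR
  · intro x hx y hy hxy
    obtain ⟨t, ht, rfl⟩ := Finset.mem_image.mp hx
    obtain ⟨s, hs, rfl⟩ := Finset.mem_image.mp hy
    obtain ⟨hsp, hst, hne, _, _⟩ := hE t ht
    obtain ⟨hsp', hss, hne', _, _⟩ := hE s hs
    simp only [hf, vec_zero, vec_one] at hxy
    have n1 : t.2.1 ≠ 0 := fun h => hne (by rw [h]; ring)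
    have m1 : s.2.1 ≠ 0 := fun h => hne' (by rw [h]; ring)
    have n1' : (t.2.1 : K) ≠ 0 := RingOfIntegers.coe_ne_zero_iff.mpr n1
    have m1' : (s.2.1 : K) ≠ 0 := RingOfIntegers.coe_ne_zero_iff.mpr m1
    have st : (t.1 : K) + t.2.1 + t.2.2 = 0 := by
      have := congrArg (fun x : 𝓞 K => (x : K)) hst
      simpa using this
    have ss : (s.1 : K) + s.2.1 + s.2.2 = 0 := by
      have := congrArg (fun x : 𝓞 K => (x : K)) hss
      simpa using this
    obtain ⟨l, hl⟩ : ∃ l : K, l = (s.2.1 : K) / t.2.1 := ⟨_, rfl⟩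
    have hl0 : l ≠ 0 := by rw [hl]; exact div_ne_zero m1' n1'
    have e1 : (s.2.1 : K) = l * t.2.1 := by rw [hl]; field_simp
    have e0 : (s.1 : K) = l * t.1 := by
      rw [div_eq_div_iff n1' m1'] at hxy
      rw [hl]
      field_simp
      linear_combination -hxy
    have e2 : (s.2.2 : K) = l * t.2.2 := by
      linear_combination ss - l * st - e0 - e1
    obtain ⟨u, hu0, hu1, hu2⟩ := unit_of_prop hsp hsp' hl0 e0 e1 e2
    rw [hun t ht s hs u hu0 hu1 hu2]

end Pool.Agent.W16.TR
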