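import Mathlib
import Pool.Agent.W16.TR.Cop

/-!
# The height of a coprime triple as a product over the complex embeddings
-/

set_option autoImplicit false
set_option linter.unusedSectionVars false

namespace Pool.Agent.W16.TR

open NumberField IsDedekindDomain Finset Pool.Agent.H691R3 Pool.Agent.W223.AK

variable {K : Type} [Field K] [NumberField K]

/-- a product over the embeddings is a product over the infinite places with multiplicity -/
lemma prod_emb (f : InfinitePlace K → ℝ) :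
    ∏ φ : K →+* ℂ, f (InfinitePlace.mk φ) = ∏ w : InfinitePlace K, f w ^ w.mult := by
  classical
  rw [← Finset.prod_fiberwise Finset.univ (fun φ : K →+* ℂ => InfinitePlace.mk φ)]
  refine Finset.prod_congr rfl fun w _ => ?_
  rw [← InfinitePlace.card_filter_mk_eq w, ← Finset.prod_const]
  refine Finset.prod_congr rfl fun φ hφ => ?_
  rw [(Finset.mem_filter.mp hφ).2]

/-- the height as a product over embeddings -/
noncomputable def HH (t : 𝓞 K × 𝓞 K × 𝓞 K) : ℝ :=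
  ∏ φ : K →+* ℂ, max ‖φ t.1‖ (max ‖φ t.2.1‖ ‖φ t.2.2‖)

lemma HH_eq (t : 𝓞 K × 𝓞 K × 𝓞 K) : HH t =
    ∏ w : InfinitePlace K, (max (w (t.1 : K)) (max (w (t.2.1 : K)) (w (t.2.2 : K)))) ^ w.mult := by
  rw [← prod_emb]
  rfl

lemma max_pos' {t : 𝓞 K × 𝓞 K × 𝓞 K} (h : t.1 ≠ 0) (w : InfinitePlace K) :
    0 < max (w (t.1 : K)) (max (w (t.2.1 : K)) (w (t.2.2 : K))) :=
  lt_max_of_lt_left (w.pos_iff.mpr (RingOfIntegers.coe_ne_zero_iff.mpr h))

lemma HH_pos {t : 𝓞 K × 𝓞 K × 𝓞 K} (h : t.1 ≠ 0) : 0 < HH t := by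
  rw [HH_eq]
  exact Finset.prod_pos fun w _ => pow_pos (max_pos' h w) _

lemma log_HH {t : 𝓞 K × 𝓞 K × 𝓞 K} (h : t.1 ≠ 0) : Real.log (HH t) =
    ∑ w : InfinitePlace K, (w.mult : ℝ) *
      Real.log (max (w (t.1 : K)) (max (w (t.2.1 : K)) (w (t.2.2 : K)))) := by
  rw [HH_eq, Real.log_prod fun w _ => (pow_pos (max_pos' h w) _).ne']
  refine Finset.sum_congr rfl fun w _ => ?_
  rw [Real.log_pow]

/-- the radical -/
noncomputable def RR (t : 𝓞 K × 𝓞 K × 𝓞 K) : ℝ :=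
  ∏ᶠ (v : HeightOneSpectrum (𝓞 K)) (_ : t.1 * t.2.1 * t.2.2 ∈ v.asIdeal),
    (Ideal.absNorm v.asIdeal : ℝ)

lemma RR_pos {t : 𝓞 K × 𝓞 K × 𝓞 K} (h : t.1 * t.2.1 * t.2.2 ≠ 0) : 0 < RR t := by
  classical
  have hfin := finite_dvd h
  have e3 : RR t = ∏ v ∈ hfin.toFinset, (Ideal.absNorm v.asIdeal : ℝ) :=
    finprod_mem_eq_finite_toFinset_prod _ hfin
  rw [e3]
  refine Finset.prod_pos fun v _ => ?_
  have := HeightOneSpectrum.one_lt_absNorm v
  have h1 : (1 : ℝ) < (Ideal.absNorm v.asIdeal : ℝ) := by exact_mod_cast this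
  linarith

/-- the count for coprime triples of integers, up to units -/
theorem cop_count' {e : ℝ} (hF : StmtFIN K e) (κ δ : ℝ) (hδ : 0 < δ) :
    ∃ D : ℝ, 0 < D ∧ ∀ (X : ℝ) (E : Finset (𝓞 K × 𝓞 K × 𝓞 K)), 1 ≤ X →
      (∀ t ∈ E, Ideal.span {t.1, t.2.1, t.2.2} = (⊤ : Ideal (𝓞 K)) ∧ t.1 + t.2.1 + t.2.2 = 0 ∧
        t.1 * t.2.1 * t.2.2 ≠ 0 ∧ HH t ≤ X ∧ RR t ≤ κ * HH t) →
      (∀ t ∈ E, ∀ s ∈ E, ∀ u : (𝓞 K)ˣ, s.1 = u * t.1 → s.2.1 = u * t.2.1 → s.2.2 = u * t.2.2 →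
        t = s) →
      (E.card : ℝ) ≤ D * X ^ (e + δ) := by
  obtain ⟨D, hD, h⟩ := cop_count hF (Real.log (max κ 1)) δ hδ
  refine ⟨D, hD, fun X E hX hE hun => ?_⟩
  have hX0 : 0 < X := by linarith
  have h1 := h (Real.log X) E (Real.log_nonneg hX) ?_ hun
  · refine h1.trans (le_of_eq ?_)
    rw [Real.rpow_def_of_pos hX0, mul_comm (Real.log X)]
  · intro t ht
    obtain ⟨hsp, hs, hne, hH, hR⟩ := hE t ht
    have n0 : t.1 ≠ 0 := fun h => hne (by rw [h]; ring)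
    have hHp := HH_pos n0
    refine ⟨hsp, hs, hne, ?_, ?_⟩
    · rw [← log_HH n0]
      exact Real.log_le_log hHp hH
    · rw [← log_HH n0, ← Real.log_mul hHp.ne' (by positivity)]
      refine Real.log_le_log (RR_pos hne) (hR.trans ?_)
      rw [mul_comm (HH t)]
      exact mul_le_mul_of_nonneg_right (le_max_left _ _) hHp.le

end Pool.Agent.W16.TR
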