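import Mathlib
import Pool.Agent.W16.TR.Emb
import Pool.Agent.W17.WK.Main

/-!
# The count for coprime triples with `rad ≤ κ H ^ λ`
-/

set_option autoImplicit false
set_option linter.unusedSectionVars false

namespace Pool.Agent.W16.TR

open NumberField IsDedekindDomain Finset Pool.Agent.H691R3 Pool.Agent.W223.AK

variable {K : Type} [Field K] [NumberField K]

theorem final_count_lam {lam e : ℝ} (hlam : 0 ≤ lam) (hF : Pool.Agent.W17.WK.StmtF K lam e)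
    (T : Set (Pr K)) (hT : T.Finite) (c₀ δ : ℝ)
    (hδ : 0 < δ) : ∃ D : ℝ, 0 < D ∧ ∀ (X : ℝ) (F : Finset (Fin 3 → K)), 0 ≤ X →
      (∀ x ∈ F, x 0 ≠ 0 ∧ x 1 ≠ 0 ∧ x 2 ≠ 0 ∧ x 0 + x 1 + x 2 = 0 ∧ H3 x ≤ X ∧
        R3 T x ≤ lam * H3 x + c₀) →
      (∀ x ∈ F, ∀ y ∈ F, x 0 / x 1 = y 0 / y 1 → x = y) →
      (F.card : ℝ) ≤ D * Real.exp ((e + δ) * X) := by
  classical
  set T' : Finset (Pr K) := hT.toFinset with hT'
  have hmem : ∀ v, v ∈ T' ↔ v ∈ T := fun v => Set.Finite.mem_toFinset _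
  obtain ⟨D, hD, h⟩ := hF T' (lam * lossK K + c₀) δ hδ
  refine ⟨D, hD, fun X F hX hF1 hF2 => ?_⟩
  have hcard : (F.image fun x => x 0 / x 1).card = F.card :=
    Finset.card_image_of_injOn fun x hx y hy hxy => hF2 x hx y hy hxy
  rw [← hcard]
  refine h X _ hX ?_
  intro t ht
  obtain ⟨x, hx, rfl⟩ := Finset.mem_image.mp ht
  obtain ⟨h0, h1, h2, hs, hH, hR⟩ := hF1 x hx
  have hb := H3_bounds h1 hs
  have hPt : Pt (x 0 / x 1) := by
    refine ⟨div_ne_zero h0 h1, ?_⟩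
    intro h3
    apply h2
    have h4 : x 0 / x 1 * x 1 = x 0 := div_mul_cancel₀ _ h1
    have h5 : x 0 / x 1 = -1 := by linear_combination h3
    rw [h5] at h4
    linear_combination hs + h4
  obtain ⟨P, hP⟩ := exists_isP T' hPt
  refine ⟨hPt, hb.1.trans hH, P, hP, ?_⟩
  rw [← R3_eq hmem h1 hs hP]
  have h6 := mul_le_mul_of_nonneg_left hb.2 hlam
  linarith

/-- the count for coprime triples of integers up to units, over any number field -/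
theorem cop_count_lam {lam e : ℝ} (hlam : 0 ≤ lam) (hF : Pool.Agent.W17.WK.StmtF K lam e)
    (κ δ : ℝ) (hδ : 0 < δ) :
    ∃ D : ℝ, 0 < D ∧ ∀ (X : ℝ) (E : Finset (𝓞 K × 𝓞 K × 𝓞 K)), 1 ≤ X →
      (∀ t ∈ E, Ideal.span {t.1, t.2.1, t.2.2} = (⊤ : Ideal (𝓞 K)) ∧ t.1 + t.2.1 + t.2.2 = 0 ∧
        t.1 * t.2.1 * t.2.2 ≠ 0 ∧ HH t ≤ X ∧ RR t ≤ κ * HH t ^ lam) →
      (∀ t ∈ E, ∀ s ∈ E, ∀ u : (𝓞 K)ˣ, s.1 = u * t.1 → s.2.1 = u * t.2.1 → s.2.2 = u * t.2.2 →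
        t = s) →
      (E.card : ℝ) ≤ D * X ^ (e + δ) := by
  classical
  obtain ⟨D, hD, hmain⟩ := final_count_lam hlam hF ∅ Set.finite_empty (Real.log (max κ 1)) δ hδ
  refine ⟨D, hD, fun X E hX hE hun => ?_⟩
  have hX0 : 0 < X := by linarith
  set f : 𝓞 K × 𝓞 K × 𝓞 K → (Fin 3 → K) := fun t => vec t.1 t.2.1 t.2.2 with hf
  have hinj : Set.InjOn f E := by
    intro t ht s hs hts
    have h0 := congrFun hts 0
    have h1 := congrFun hts 1
    have h2 := congrFun hts 2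
    simp only [hf, vec_zero, vec_one, vec_two] at h0 h1 h2
    have g0 := RingOfIntegers.coe_injective h0
    have g1 := RingOfIntegers.coe_injective h1
    have g2 := RingOfIntegers.coe_injective h2
    exact Prod.ext g0 (Prod.ext g1 g2)
  have hcard : (E.image f).card = E.card := Finset.card_image_of_injOn hinj
  rw [← hcard]
  refine (hmain (Real.log X) (E.image f) (Real.log_nonneg hX) ?_ ?_).trans (le_of_eq ?_)
  · intro x hx
    obtain ⟨t, ht, rfl⟩ := Finset.mem_image.mp hx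
    obtain ⟨hsp, hs, hne, hH, hR⟩ := hE t ht
    have n0 : t.1 ≠ 0 := fun h => hne (by rw [h]; ring)
    have n1 : t.2.1 ≠ 0 := fun h => hne (by rw [h]; ring)
    have n2 : t.2.2 ≠ 0 := fun h => hne (by rw [h]; ring)
    have hHp := HH_pos n0
    refine ⟨RingOfIntegers.coe_ne_zero_iff.mpr n0, RingOfIntegers.coe_ne_zero_iff.mpr n1,
      RingOfIntegers.coe_ne_zero_iff.mpr n2, ?_, ?_, ?_⟩
    · simp only [hf, vec_zero, vec_one, vec_two]
      have := congrArg (fun x : 𝓞 K => (x : K)) hs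
      simpa using this
    · simp only [hf]
      rw [H3_cop hsp, ← log_HH n0]
      exact Real.log_le_log hHp hH
    · simp only [hf]
      rw [H3_cop hsp, ← log_HH n0, R3_cop hsp hne, ← Real.log_rpow hHp,
        ← Real.log_mul (Real.rpow_pos_of_pos hHp _).ne' (by positivity)]
      refine Real.log_le_log (RR_pos hne) (hR.trans ?_)
      rw [mul_comm (HH t ^ lam)]
      exact mul_le_mul_of_nonneg_right (le_max_left _ _) (Real.rpow_nonneg hHp.le _)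
  · intro x hx y hy hxy
    obtain ⟨t, ht, rfl⟩ := Finset.mem_image.mp hx
    obtain ⟨s, hs, rfl⟩ := Finset.mem_image.mp hy
    obtain ⟨hsp, hst, hne, _, _⟩ := hE t ht
    obtain ⟨hsp', hss, hne', _, _⟩ := hE s hs
    simp only [hf, vec_zero, vec_one] at hxy
    have n1 : t.2.1 ≠ 0 := fun h => hne (by rw [h]; ring)
    have m1 : s.2.1 ≠ 0 := fun h => hne' (by rw [h]; ring)
    have n1' : (t.2.1 : K) ≠ 0 := RingOfIntegers.coe_ne_zero_iff.mpr n1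
    have m1' : (s.2.1 : K) ≠ 0 := RingOfIntegers.coe_ne_zero_iff.mpr m1
    have st : (t.1 : K) + t.2.1 + t.2.2 = 0 := by
      have := congrArg (fun x : 𝓞 K => (x : K)) hst
      simpa using this
    have ss : (s.1 : K) + s.2.1 + s.2.2 = 0 := by
      have := congrArg (fun x : 𝓞 K => (x : K)) hss
      simpa using this
    obtain ⟨l, hl⟩ : ∃ l : K, l = (s.2.1 : K) / t.2.1 := ⟨_, rfl⟩
    have hl0 : l ≠ 0 := by rw [hl]; exact div_ne_zero m1' n1'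
    have e1 : (s.2.1 : K) = l * t.2.1 := by rw [hl]; field_simp
    have e0 : (s.1 : K) = l * t.1 := by
      rw [div_eq_div_iff n1' m1'] at hxy
      rw [hl]
      field_simp
      linear_combination -hxy
    have e2 : (s.2.2 : K) = l * t.2.2 := by
      linear_combination ss - l * st - e0 - e1
    obtain ⟨u, hu0, hu1, hu2⟩ := unit_of_prop hsp hsp' hl0 e0 e1 e2
    rw [hun t ht s hs u hu0 hu1 hu2]
  · rw [Real.rpow_def_of_pos hX0, mul_comm (Real.log X)]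

/-! ### The rational numbers -/

/-- the triple of integers of `ℚ` attached to `(a, b)` -/
noncomputable def tri (p : ℕ × ℕ) : 𝓞 ℚ × 𝓞 ℚ × 𝓞 ℚ :=
  ((p.1 : 𝓞 ℚ), (p.2 : 𝓞 ℚ), -((p.1 + p.2 : ℕ) : 𝓞 ℚ))

lemma coe_natCast (n : ℕ) : (((n : ℕ) : 𝓞 ℚ) : ℚ) = n := map_natCast (algebraMap (𝓞 ℚ) ℚ) n

lemma tri_inj {p q : ℕ × ℕ} (h : tri p = tri q) : p = q := by
  have h0 := congrArg (fun t : 𝓞 ℚ × 𝓞 ℚ × 𝓞 ℚ => ((t.1 : 𝓞 ℚ) : ℚ)) h
  have h1 := congrArg (fun t : 𝓞 ℚ × 𝓞 ℚ × 𝓞 ℚ => ((t.2.1 : 𝓞 ℚ) : ℚ)) h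
  simp only [tri] at h0 h1
  rw [coe_natCast, coe_natCast] at h0 h1
  exact Prod.ext (by exact_mod_cast h0) (by exact_mod_cast h1)

lemma tri_span {p : ℕ × ℕ} (h : p.1.Coprime p.2) :
    Ideal.span {(tri p).1, (tri p).2.1, (tri p).2.2} = (⊤ : Ideal (𝓞 ℚ)) := by
  have h1 : IsCoprime (p.1 : ℤ) (p.2 : ℤ) := Nat.isCoprime_iff_coprime.mpr h
  obtain ⟨u, v, huv⟩ := h1
  rw [Ideal.eq_top_iff_one]
  have h2 : (1 : 𝓞 ℚ) = (u : 𝓞 ℚ) * (p.1 : 𝓞 ℚ) + (v : 𝓞 ℚ) * (p.2 : 𝓞 ℚ) := by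
    have := congrArg (fun z : ℤ => (z : 𝓞 ℚ)) huv
    push_cast at this
    exact this.symm
  rw [h2]
  refine Ideal.add_mem _ (Ideal.mul_mem_left _ _ (Ideal.subset_span ?_))
    (Ideal.mul_mem_left _ _ (Ideal.subset_span ?_))
  · simp [tri]
  · simp [tri]

lemma HH_tri (p : ℕ × ℕ) : HH (tri p) = ((p.1 + p.2 : ℕ) : ℝ) := by
  unfold HH
  have hsub : Subsingleton (ℚ →+* ℂ) := inferInstance
  have h1 : ∀ φ : ℚ →+* ℂ, max ‖φ (((tri p).1 : 𝓞 ℚ) : ℚ)‖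
      (max ‖φ (((tri p).2.1 : 𝓞 ℚ) : ℚ)‖ ‖φ (((tri p).2.2 : 𝓞 ℚ) : ℚ)‖) = ((p.1 + p.2 : ℕ) : ℝ) := by
    intro φ
    have e1 : ((tri p).1 : ℚ) = p.1 := coe_natCast _
    have e2 : ((tri p).2.1 : ℚ) = p.2 := coe_natCast _
    have e3 : ((tri p).2.2 : ℚ) = -((p.1 + p.2 : ℕ) : ℚ) := by
      show ((-((p.1 + p.2 : ℕ) : 𝓞 ℚ) : 𝓞 ℚ) : ℚ) = _
      rw [show ((-((p.1 + p.2 : ℕ) : 𝓞 ℚ) : 𝓞 ℚ) : ℚ) = -((((p.1 + p.2 : ℕ) : 𝓞 ℚ) : 𝓞 ℚ) : ℚ) from
        map_neg (algebraMap (𝓞 ℚ) ℚ) _, coe_natCast]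
    rw [e1, e2, e3, map_neg, norm_neg, map_natCast, map_natCast, map_natCast, Complex.norm_natCast,
      Complex.norm_natCast, Complex.norm_natCast]
    push_cast
    have h1 : (0 : ℝ) ≤ p.1 := Nat.cast_nonneg _
    have h2 : (0 : ℝ) ≤ p.2 := Nat.cast_nonneg _
    rw [max_eq_right (show (p.2 : ℝ) ≤ p.1 + p.2 by linarith),
      max_eq_right (show (p.1 : ℝ) ≤ p.1 + p.2 by linarith)]
  rw [Finset.prod_congr rfl fun φ _ => h1 φ, Finset.prod_const, Finset.card_univ]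
  have hc : Fintype.card (ℚ →+* ℂ) = 1 := by
    rw [Fintype.card_eq_one_iff_nonempty_unique]
    exact ⟨⟨⟨algebraMap ℚ ℂ⟩, fun a => Subsingleton.elim _ _⟩⟩
  rw [hc, pow_one]

lemma absNorm_prime (v : HeightOneSpectrum (𝓞 ℚ)) :
    Ideal.absNorm v.asIdeal = Rat.HeightOneSpectrum.natGenerator v ∧
      ∀ n : ℕ, ((n : 𝓞 ℚ) ∈ v.asIdeal ↔ Rat.HeightOneSpectrum.natGenerator v ∣ n) := by
  have hmem : ∀ n : ℕ, ((n : 𝓞 ℚ) ∈ v.asIdeal ↔ Rat.HeightOneSpectrum.natGenerator v ∣ n) := by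
    intro n
    rw [Rat.HeightOneSpectrum.natGenerator_dvd_iff,
      ← map_natCast (Rat.IsIntegralClosure.intEquiv (𝓞 ℚ)) n]
    exact (Ideal.apply_mem_of_equiv_iff).symm
  refine ⟨?_, hmem⟩
  set q := Rat.HeightOneSpectrum.natGenerator v with hq
  have hspan : v.asIdeal = Ideal.span {((q : ℕ) : 𝓞 ℚ)} := by
    apply le_antisymm
    · intro x hx
      have h1 : Rat.IsIntegralClosure.intEquiv (𝓞 ℚ) x ∈
          v.asIdeal.map (Rat.IsIntegralClosure.intEquiv (𝓞 ℚ)) := Ideal.mem_map_of_mem _ hx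
      rw [← Rat.HeightOneSpectrum.span_natGenerator, Ideal.mem_span_singleton] at h1
      obtain ⟨k, hk⟩ := h1
      rw [Ideal.mem_span_singleton]
      refine ⟨(k : 𝓞 ℚ), ?_⟩
      apply (Rat.IsIntegralClosure.intEquiv (𝓞 ℚ)).injective
      rw [hk, map_mul, map_natCast, map_intCast]
      simp [hq]
    · rw [Ideal.span_singleton_le_iff_mem]
      exact (hmem q).mpr dvd_rfl
  rw [hspan, Ideal.absNorm_span_singleton]
  have h2 : Algebra.norm ℤ ((q : ℕ) : 𝓞 ℚ) = (q : ℤ) ^ Module.finrank ℤ (𝓞 ℚ) := by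
    have := Algebra.norm_algebraMap (R := ℤ) (S := 𝓞 ℚ) (q : ℤ)
    rw [← this]
    congr 1
  rw [h2, RingOfIntegers.rank, Module.finrank_self, pow_one]
  rfl

lemma RR_tri {p : ℕ × ℕ} (h1 : 0 < p.1) (h2 : 0 < p.2) :
    RR (tri p) ≤ ∏ q ∈ (p.1 * p.2 * (p.1 + p.2)).primeFactors, (q : ℝ) := by
  classical
  have hn : p.1 * p.2 * (p.1 + p.2) ≠ 0 := by positivity
  have hprod : (tri p).1 * (tri p).2.1 * (tri p).2.2 = -((p.1 * p.2 * (p.1 + p.2) : ℕ) : 𝓞 ℚ) := by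
    simp only [tri]
    push_cast
    ring
  have hne : (tri p).1 * (tri p).2.1 * (tri p).2.2 ≠ 0 := by
    rw [hprod, neg_ne_zero]
    exact_mod_cast hn
  have hfin := finite_dvd hne
  have e3 : RR (tri p) = ∏ v ∈ hfin.toFinset, (Ideal.absNorm v.asIdeal : ℝ) :=
    finprod_mem_eq_finite_toFinset_prod _ hfin
  rw [e3]
  set g : HeightOneSpectrum (𝓞 ℚ) → ℕ := fun v => Rat.HeightOneSpectrum.natGenerator v with hg
  have hginj : Function.Injective g := by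
    intro v w hvw
    apply (Rat.HeightOneSpectrum.primesEquiv (R := 𝓞 ℚ)).injective
    exact Subtype.ext hvw
  have e4 : ∏ v ∈ hfin.toFinset, (Ideal.absNorm v.asIdeal : ℝ) =
      ∏ q ∈ hfin.toFinset.image g, (q : ℝ) := by
    rw [Finset.prod_image fun v _ w _ hvw => hginj hvw]
    refine Finset.prod_congr rfl fun v _ => ?_
    rw [(absNorm_prime v).1]
  rw [e4]
  have hsub : hfin.toFinset.image g ⊆ (p.1 * p.2 * (p.1 + p.2)).primeFactors := by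
    intro q hq
    obtain ⟨v, hv, rfl⟩ := Finset.mem_image.mp hq
    have hv1 : (tri p).1 * (tri p).2.1 * (tri p).2.2 ∈ v.asIdeal := hfin.mem_toFinset.mp hv
    rw [hprod, neg_mem_iff] at hv1
    rw [Nat.mem_primeFactors]
    exact ⟨Rat.HeightOneSpectrum.prime_natGenerator v, ((absNorm_prime v).2 _).mp hv1, hn⟩
  have hle := Finset.prod_le_prod_of_subset_of_one_le' (f := fun q : ℕ => q) hsub
    (fun q hq _ => (Nat.prime_of_mem_primeFactors hq).one_lt.le)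
  have e5 : ∀ s : Finset ℕ, ∏ q ∈ s, (q : ℝ) = ((∏ q ∈ s, q : ℕ) : ℝ) := fun s => by push_cast; rfl
  rw [e5, e5]
  exact_mod_cast hle

/-- the count over `ℚ` -/
theorem rat_count {lam e : ℝ} (hlam : 0 ≤ lam) (hF : Pool.Agent.W17.WK.StmtF ℚ lam e)
    (κ δ : ℝ) (hδ : 0 < δ) :
    ∃ D : ℝ, 0 < D ∧ ∀ (X : ℝ) (E : Finset (ℕ × ℕ)), 1 ≤ X →
      (∀ p ∈ E, 0 < p.1 ∧ 0 < p.2 ∧ p.1.Coprime p.2 ∧ ((p.1 + p.2 : ℕ) : ℝ) ≤ X ∧
        ∏ q ∈ (p.1 * p.2 * (p.1 + p.2)).primeFactors, (q : ℝ) ≤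
          κ * ((p.1 + p.2 : ℕ) : ℝ) ^ lam) →
      (E.card : ℝ) ≤ D * X ^ (e + δ) := by
  classical
  obtain ⟨D, hD, h⟩ := cop_count_lam hlam hF κ δ hδ
  refine ⟨D, hD, fun X E hX hE => ?_⟩
  have hcard : (E.image tri).card = E.card :=
    Finset.card_image_of_injective _ fun p q h => tri_inj h
  rw [← hcard]
  refine h X (E.image tri) hX ?_ ?_
  · intro t ht
    obtain ⟨p, hp, rfl⟩ := Finset.mem_image.mp ht
    obtain ⟨h1, h2, h3, h4, h5⟩ := hE p hp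
    refine ⟨tri_span h3, ?_, ?_, ?_, ?_⟩
    · simp only [tri]
      push_cast
      ring
    · have hn : p.1 * p.2 * (p.1 + p.2) ≠ 0 := by positivity
      have hprod : (tri p).1 * (tri p).2.1 * (tri p).2.2 =
          -((p.1 * p.2 * (p.1 + p.2) : ℕ) : 𝓞 ℚ) := by
        simp only [tri]
        push_cast
        ring
      rw [hprod, neg_ne_zero]
      exact_mod_cast hn
    · rw [HH_tri]
      exact h4
    · rw [HH_tri]
      exact (RR_tri h1 h2).trans h5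
  · intro t ht s hs u h0 h1 h2
    obtain ⟨p, hp, rfl⟩ := Finset.mem_image.mp ht
    obtain ⟨q, hq, rfl⟩ := Finset.mem_image.mp hs
    obtain ⟨p1, p2, p3, _, _⟩ := hE p hp
    obtain ⟨q1, q2, q3, _, _⟩ := hE q hq
    -- the unit is positive, hence one
    have hu : ((u : 𝓞 ℚ) : ℚ) * p.1 = q.1 := by
      have := congrArg (fun x : 𝓞 ℚ => (x : ℚ)) h0
      simp only [tri] at this
      rw [show (((u : 𝓞 ℚ) * ((p.1 : ℕ) : 𝓞 ℚ) : 𝓞 ℚ) : ℚ) = ((u : 𝓞 ℚ) : ℚ) * (((p.1 : ℕ) : 𝓞 ℚ) : ℚ)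
        from cmul _ _, coe_natCast, coe_natCast] at this
      exact this.symm
    have hu' : ((u : 𝓞 ℚ) : ℚ) * p.2 = q.2 := by
      have := congrArg (fun x : 𝓞 ℚ => (x : ℚ)) h1
      simp only [tri] at this
      rw [show (((u : 𝓞 ℚ) * ((p.2 : ℕ) : 𝓞 ℚ) : 𝓞 ℚ) : ℚ) = ((u : 𝓞 ℚ) : ℚ) * (((p.2 : ℕ) : 𝓞 ℚ) : ℚ)
        from cmul _ _, coe_natCast, coe_natCast] at this
      exact this.symm
    have hp1 : (0 : ℚ) < p.1 := by exact_mod_cast p1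
    have hp2 : (0 : ℚ) < p.2 := by exact_mod_cast p2
    have hq1 : (0 : ℚ) < q.1 := by exact_mod_cast q1
    -- cross ratio
    have hcross : (p.1 : ℚ) * q.2 = q.1 * p.2 := by
      rw [← hu, ← hu']
      ring
    have hcross' : p.1 * q.2 = q.1 * p.2 := by exact_mod_cast hcross
    have d1 : p.1 ∣ q.1 := by
      have : p.1 ∣ q.1 * p.2 := ⟨q.2, hcross'.symm⟩
      exact p3.dvd_of_dvd_mul_right this
    have d2 : q.1 ∣ p.1 := by
      have : q.1 ∣ p.1 * q.2 := ⟨p.2, hcross'⟩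
      exact q3.dvd_of_dvd_mul_right this
    have e1 : p.1 = q.1 := Nat.dvd_antisymm d1 d2
    have e2 : p.2 = q.2 := by
      rw [e1] at hcross'
      exact (Nat.eq_of_mul_eq_mul_left q1 hcross').symm
    rw [Prod.ext e1 e2]

end Pool.Agent.W16.TR
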